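import Pool.Agent.P.MP_b17faa_gt.FoOne

namespace Pool.Agent.Results.MP_b17faa_gt.FirstOrder

open Pool.Agent.P.MP_b17faa_gt Pool.Agent.P.MP_b17faa_gt.Fo Pool.Agent.Lib.Helper87

/-- The complete table of Q1 for the first order sentences `implies i j`. A row `(i, yes, no)`
lists the `j` for which the sentence holds in the universe of sets, and the `j` for which it fails
in the model `M` of the axioms of ZFC. -/
theorem result : ∃ M : Set ZFSet.{0}, (∀ φ ∈ ZFC, Sat M φ ![]) ∧ ∀ r ∈ ([
      (0, [], [5, 6, 7, 14, 15]),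
      (1, [0, 18], [5, 6, 7, 14, 15]),
      (2, [], [6, 7, 15]),
      (3, [], [7]),
      (4, [], [10, 11, 17]),
      (5, [0, 4, 18], [10, 11, 17]),
      (6, [], [10, 11, 17]),
      (7, [], [11]),
      (9, [0, 4, 8, 18], []),
      (12, [3], [0, 1, 2, 5, 6, 7, 14, 15, 18]),
      (13, [], [15]),
      (14, [2, 3], [0, 1, 4, 5, 6, 7, 10, 11, 17, 18]),
      (15, [], [17]),
      (16, [2, 3, 6, 7, 10, 11], [0, 1, 4, 5, 8, 9, 18]),
      (18, [13], [15]),
      (19, [13], [15]),
      (20, [], [13, 15])] : List (ℕ × List ℕ × List ℕ)),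
    (∀ j ∈ r.2.1, Sat Set.univ (implies r.1 j) ![]) ∧
      ∀ j ∈ r.2.2, ¬ Sat M (implies r.1 j) ![] := by
  obtain ⟨M, hM, A, B, C, D, E, F⟩ := one_model
  refine ⟨M, models_ZFC hM, ?_⟩
  simp only [List.forall_mem_cons, List.not_mem_nil, false_imp_iff, implies_true, and_true,
    true_and]
  refine ⟨?_, ⟨?_, ?_⟩, ?_, ?_, ?_, ⟨?_, ?_⟩, ?_, ?_, ?_, ⟨?_, ?_⟩, ?_, ⟨?_, ?_⟩, ?_, ⟨?_, ?_⟩,
    ⟨?_, ?_⟩, ⟨?_, ?_⟩, ?_⟩
  all_goals
    repeat' apply And.intro
    all_goals first
      | exact A _ (by decide) _ (by decide)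
      | exact B _ (by decide) _ (by decide)
      | exact C _ (by decide) _ (by decide)
      | exact D _ (by decide) _ (by decide)
      | exact E _ (by decide) _ (by decide)
      | exact F _ (by decide) _ (by decide)
      | (refine holds_univ fun X hX h => ?_
         have := hX.to_subtype
         first
          | exact imp_1_0 h
          | exact imp_0_18 (imp_1_0 h)
          | exact imp_5_4 h
          | exact imp_4_0 (imp_5_4 h)
          | exact imp_0_18 (imp_4_0 (imp_5_4 h))
          | exact imp_9_8 h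
          | exact imp_8_4 (imp_9_8 h)
          | exact imp_4_0 (imp_8_4 (imp_9_8 h))
          | exact imp_0_18 (imp_4_0 (imp_8_4 (imp_9_8 h)))
          | exact imp_12_3 h
          | exact imp_14_2 h
          | exact imp_2_3 (imp_14_2 h)
          | exact imp_16_10 h
          | exact imp_10_6 (imp_16_10 h)
          | exact imp_6_7 (imp_10_6 (imp_16_10 h))
          | exact imp_6_2 (imp_10_6 (imp_16_10 h))
          | exact imp_2_3 (imp_6_2 (imp_10_6 (imp_16_10 h)))
          | exact imp_10_11 (imp_16_10 h)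
          | exact imp_18_13 h
          | exact imp_19_13 h)

end Pool.Agent.Results.MP_b17faa_gt.FirstOrder
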