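import Pool.Agent.P.MP_b17faa_gt.Table
import Pool.Agent.P.MP_b17faa_gt.X7

namespace Pool.Agent.Results.MP_b17faa_gt.Table76

open Pool.Agent.P.MP_b17faa_gt Pool.Agent.Lib.Helper87 Coded

/-- The complete table of Q1. A row `(i, yes, no)` lists the `j` for which
property `i` implies property `j` for all nonempty sets of reals, and the `j` for which some
transitive model of ZFC has a nonempty set of reals with property `i` and without property `j`. -/
theorem result : ∀ r ∈ ([
      (0, [], [5, 6, 7, 14, 15]),
      (1, [0, 18], [5, 6, 7, 14, 15]),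
      (2, [], [6, 7, 15]),
      (3, [], [7]),
      (4, [], [10, 11, 17]),
      (5, [0, 4, 18], [10, 11, 17]),
      (6, [], [10, 11, 17]),
      (7, [], [11]),
      (9, [0, 4, 8, 18], []),
      (12, [3], [0, 1, 2, 5, 6, 7, 14, 15, 18]),
      (13, [], [15]),
      (14, [2, 3], [0, 1, 4, 5, 6, 7, 10, 11, 17, 18]),
      (15, [], [17]),
      (16, [2, 3, 6, 7, 10, 11], [0, 1, 4, 5, 8, 9, 18]),
      (18, [13], [15]),
      (19, [13], [15]),
      (20, [], [13, 15])] : List (ℕ × List ℕ × List ℕ)),
    (∀ j ∈ r.2.1, ∀ X : Set ℝ, X.Nonempty →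
      Property Set.univ X r.1 → Property Set.univ X j) ∧
    (∀ j ∈ r.2.2, ∃ M : Set ZFSet.{0}, TransModelZFC M ∧ ∃ X : Set ℝ, code X ∈ M ∧ X.Nonempty ∧
      Property M X r.1 ∧ ¬ Property M X j) := by
  have A := @Separates.pair _ _ sepA
  have B := @Separates.pair _ _ sepB
  have C := @Separates.pair _ _ sepC
  have D := @Separates.pair _ _ sepD
  have E := @Separates.pair _ _ sep4
  have F := @Separates.pair _ _ sep7
  simp only [List.forall_mem_cons, List.not_mem_nil, false_imp_iff, implies_true, and_true,
    true_and]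
  refine ⟨?_, ⟨?_, ?_⟩, ?_, ?_, ?_, ⟨?_, ?_⟩, ?_, ?_, ?_, ⟨?_, ?_⟩, ?_, ⟨?_, ?_⟩, ?_, ⟨?_, ?_⟩,
    ⟨?_, ?_⟩, ⟨?_, ?_⟩, ?_⟩
  all_goals
    repeat' apply And.intro
    all_goals first
      | exact A (by decide) (by decide)
      | exact B (by decide) (by decide)
      | exact C (by decide) (by decide)
      | exact D (by decide) (by decide)
      | exact E (by decide) (by decide)
      | exact F (by decide) (by decide)
      | (intro X hX h
         have := hX.to_subtype
         first
          | exact imp_1_0 h
          | exact imp_0_18 (imp_1_0 h)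
          | exact imp_5_4 h
          | exact imp_4_0 (imp_5_4 h)
          | exact imp_0_18 (imp_4_0 (imp_5_4 h))
          | exact imp_9_8 h
          | exact imp_8_4 (imp_9_8 h)
          | exact imp_4_0 (imp_8_4 (imp_9_8 h))
          | exact imp_0_18 (imp_4_0 (imp_8_4 (imp_9_8 h)))
          | exact imp_12_3 h
          | exact imp_14_2 h
          | exact imp_2_3 (imp_14_2 h)
          | exact imp_16_10 h
          | exact imp_10_6 (imp_16_10 h)
          | exact imp_6_7 (imp_10_6 (imp_16_10 h))
          | exact imp_6_2 (imp_10_6 (imp_16_10 h))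
          | exact imp_2_3 (imp_6_2 (imp_10_6 (imp_16_10 h)))
          | exact imp_10_11 (imp_16_10 h)
          | exact imp_18_13 h
          | exact imp_19_13 h)

end Pool.Agent.Results.MP_b17faa_gt.Table76
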